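import Mathlib
import Pool.Agent.Run7.h767.ST.Chr

/-!
# The derivatives at `0` of L-functions by prime ideals, and the rank one Stark conjecture for
characters of mixed signature

(A) Let `K` be a number field, `𝔣` an ideal, `0 ≠ 𝔣 ≠ 𝓞 K`, `P` a set of real embeddings of `K`;
suppose that `K` has a complex place or that `P` does not contain all the real embeddings. Let `A`
be a homomorphism from the ray class group modulo `𝔣 P` to a finite group `G` (for instance the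
Artin map of an abelian extension) and `χ` a character of `G`. The L-function
`L_S(χ, s) = ∑_(𝔞 prime to 𝔣) χ(A(𝔞)) N(𝔞)^(-s)` has a continuation, analytic outside of `1`, it
vanishes at `0`, and for every `γ > π / 2`

  `L_S'(χ, 0) = t e^(-Λ_γ) exp (∑_(τ ∈ G) χ(τ) S_τ(t)) + O(1 / t)`,

  `S_τ(t) = ∑_(𝔭, k : A(𝔭 ^ k) = τ) (1 / k) e^(i γ u) / Γ(1 + u)`, `u = k log N(𝔭) / t`,

`Λ_γ = ∫_0^∞ (e^(-t) - e^(i γ t) / Γ(1 + t)) dt / t`. This is unconditional; no continuation and no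
zeros occur on the right: the prime ideals, sorted by their classes, are counted with the weight `1`
(the point `s = 0`); the same `|G|` sums serve for all the characters.

(B) Let `K` (`F` on the page) be a real quadratic field, `H / K` an abelian extension with the modulus
`𝔣 ∞₂`, in which `v₁` stays real and `v₂` becomes complex, `S` the set of the archimedean places and
of the prime divisors of `𝔣`, `0 ≠ 𝔣 ≠ 𝓞 K` (so `|S| ≥ 3`), `χ` a character of `Gal(H/K)` of mixed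
signature, such that `L_S(χ, s)` has a simple zero at `0`. Q1 for these data holds if and only if there
is a `u_χ ∈ (k ⊗ U_(v,S))^(χ⁻¹)` with `log |u_χ|_v = lim_(t → ∞) D_χ(t)`, where `D_χ(t)` is the right
side in (A), a sum over prime ideals of `K` sorted by their Frobenius automorphisms in `H`. The limit
may be taken along any sequence (any filter `l ≤ atTop`).
-/

set_option autoImplicit false
set_option linter.unusedSectionVars false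

namespace Pool.Agent.Results.MP_c49e96_nt.MixedSignatureByPrimes

open NumberField Filter Topology Asymptotics

section defs

variable {K : Type} [Field K] [NumberField K] {G : Type} [Group G]

/-- `x` is positive at the real embeddings in `P`. -/
def Pos (P : Set (K →+* ℝ)) (x : 𝓞 K) : Prop := ∀ σ ∈ P, 0 < σ (x : K)

/-- On the ideals prime to `𝔣` the function `A` is a homomorphism from the ray class group modulo
`𝔣 P` to `G` (its values at the other ideals are irrelevant). -/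
structure IsRayHom (𝔣 : Ideal (𝓞 K)) (P : Set (K →+* ℝ)) (A : Ideal (𝓞 K) → G) : Prop where
  mul : ∀ 𝔞 𝔟, IsCoprime 𝔞 𝔣 → IsCoprime 𝔟 𝔣 → A (𝔞 * 𝔟) = A 𝔞 * A 𝔟
  ray : ∀ x : 𝓞 K, x - 1 ∈ 𝔣 → Pos P x → A (Ideal.span {x}) = 1

/-- `H / K` is a finite abelian extension, `A` is its Artin map on the ideals prime to `𝔣` (arithmetic
Frobenius automorphisms), the primes which do not divide `𝔣` are unramified, and `𝔣 P` is a modulus: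
`A((x)) = 1` for the `P`-positive `x ≡ 1 mod 𝔣` (Artin's reciprocity law). -/
structure IsArtinMap (H : Type) [Field H] [NumberField H] [Algebra K H]
    (𝔣 : Ideal (𝓞 K)) (P : Set (K →+* ℝ)) (A : Ideal (𝓞 K) → (H ≃ₐ[K] H)) : Prop where
  galois : IsGalois K H
  comm : ∀ a b : H ≃ₐ[K] H, a * b = b * a
  unram : ∀ 𝔭 : Ideal (𝓞 K), 𝔭.IsPrime → 𝔭 ≠ ⊥ → IsCoprime 𝔭 𝔣 → ∀ 𝔓 : Ideal (𝓞 H), 𝔓.IsPrime →
    𝔓.comap (algebraMap (𝓞 K) (𝓞 H)) = 𝔭 → ∀ σ : H ≃ₐ[K] H, σ ≠ 1 → ∃ x : 𝓞 H, ∀ y ∈ 𝔓,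
      ((y : 𝓞 H) : H) ≠ σ (x : H) - (x : H)
  frob : ∀ 𝔭 : Ideal (𝓞 K), 𝔭.IsPrime → 𝔭 ≠ ⊥ → IsCoprime 𝔭 𝔣 → ∀ 𝔓 : Ideal (𝓞 H), 𝔓.IsPrime →
    𝔓.comap (algebraMap (𝓞 K) (𝓞 H)) = 𝔭 → ∀ x : 𝓞 H, ∃ y ∈ 𝔓,
      ((y : 𝓞 H) : H) = A 𝔭 (x : H) - (x : H) ^ Ideal.absNorm 𝔭
  mul : ∀ 𝔞 𝔟, IsCoprime 𝔞 𝔣 → IsCoprime 𝔟 𝔣 → A (𝔞 * 𝔟) = A 𝔞 * A 𝔟
  ray : ∀ x : 𝓞 K, x - 1 ∈ 𝔣 → Pos P x → A (Ideal.span {x}) = 1

/-- `Z` is the continuation of the L-function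
`L_S(χ, s) = ∑_(𝔞 prime to 𝔣) χ(A(𝔞)) N(𝔞)^(-s)`, `S` the archimedean places and the primes which
divide `𝔣`. -/
def IsL (𝔣 : Ideal (𝓞 K)) (A : Ideal (𝓞 K) → G) (χ : G →* ℂˣ) (Z : ℂ → ℂ) : Prop :=
  (∀ s, MeromorphicAt Z s) ∧ AnalyticAt ℂ Z 0 ∧ ∀ s : ℂ, 1 < s.re →
    Z s = ∑' 𝔞 : {𝔞 : Ideal (𝓞 K) // IsCoprime 𝔞 𝔣},
      ((χ (A 𝔞.1) : ℂˣ) : ℂ) * ((Ideal.absNorm 𝔞.1 : ℕ) : ℂ) ^ (-s)

open Classical in
/-- `1 / k` if `𝔞 = 𝔭 ^ k` with a prime ideal `𝔭` and `k ≥ 1`, and `0` if `𝔞` is not such a power: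
`log N(rad 𝔞) / log N(𝔞)`. -/
noncomputable def wt (𝔞 : Ideal (𝓞 K)) : ℝ :=
  if IsPrimePow 𝔞 then Real.log (Ideal.absNorm 𝔞.radical) / Real.log (Ideal.absNorm 𝔞) else 0

/-- `(1 / k) e^(i γ u) / Γ(1 + u)`, `u = log N(𝔞) / T`, for `𝔞 = 𝔭 ^ k`. -/
noncomputable def term (γ T : ℝ) (𝔞 : Ideal (𝓞 K)) : ℂ :=
  (wt 𝔞 : ℂ) * Complex.exp ((γ * (Real.log (Ideal.absNorm 𝔞) / T) : ℝ) * Complex.I) *
    ((Real.Gamma (1 + Real.log (Ideal.absNorm 𝔞) / T))⁻¹ : ℝ)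

/-- `S_τ(T)`: the sum over the powers of prime ideals prime to `𝔣` with `A(𝔭 ^ k) = τ`. -/
noncomputable def primeSum (𝔣 : Ideal (𝓞 K)) (A : Ideal (𝓞 K) → G) (τ : G) (γ T : ℝ) : ℂ :=
  ∑' 𝔞 : {𝔞 : Ideal (𝓞 K) // IsCoprime 𝔞 𝔣 ∧ A 𝔞 = τ}, term γ T 𝔞.1

/-- `Λ_γ = ∫_0^∞ (e^(-t) - e^(i γ t) / Γ(1 + t)) dt / t`. -/
noncomputable def Lam (γ : ℝ) : ℂ := ∫ t in Set.Ioi (0 : ℝ),
  (Complex.exp (-(t : ℂ)) - Complex.exp ((γ * t : ℝ) * Complex.I) *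
    ((Real.Gamma (1 + t))⁻¹ : ℝ)) / t

/-- `D_χ(t) = t e^(-Λ_γ) exp (∑_τ χ(τ) S_τ(t))`. -/
noncomputable def approx (𝔣 : Ideal (𝓞 K)) (A : Ideal (𝓞 K) → G) (χ : G →* ℂˣ) (γ t : ℝ) : ℂ :=
  t * Complex.exp (-Lam γ) *
    Complex.exp (∑ᶠ τ : G, ((χ τ : ℂˣ) : ℂ) * primeSum 𝔣 A τ γ t)

variable {H : Type} [Field H] [NumberField H] [Algebra K H]

/-- `u ∈ U_(v,S)` (for `|S| ≥ 3`): `|u|_w = 1` for every place `w` of `H` which does not lie over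
`v₁`. -/
def InU (v₁ : InfinitePlace K) (u : Hˣ) : Prop :=
  (∀ w : FinitePlace H, w (u : H) = 1) ∧
    ∀ w : InfinitePlace H, w.comap (algebraMap K H) ≠ v₁ → w (u : H) = 1

/-- `k = ℚ(χ)`, a subfield of `ℂ`. -/
noncomputable def kk (χ : (H ≃ₐ[K] H) →* ℂˣ) : IntermediateField ℚ ℂ :=
  IntermediateField.adjoin ℚ (Set.range fun σ : H ≃ₐ[K] H => ((χ σ : ℂˣ) : ℂ))

/-- The finite sum `∑_u t(u) ⊗ u` belongs to `(k ⊗ U_(v,S))^(χ⁻¹)`: the coefficients are in `k`, the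
`u` in `U_(v,S)`, and `∑ t(u) ⊗ σ(u) = χ⁻¹(σ) ∑ t(u) ⊗ u` for all `σ ∈ Gal(H/K)`. The last equation
in `k ⊗_ℤ H^×` is tested by the homomorphisms `f` from `H^×` to `ℚ` (`k ⊗_ℤ H^×` is
`k ⊗_ℚ (ℚ ⊗_ℤ H^×)`, and the linear forms separate the points). -/
structure InPart (χ : (H ≃ₐ[K] H) →* ℂˣ) (v₁ : InfinitePlace K) (t : Hˣ →₀ ℂ) : Prop where
  coeff : ∀ u, t u ∈ kk χ
  mem : ∀ u, t u ≠ 0 → InU v₁ u
  eigen : ∀ (σ : H ≃ₐ[K] H) (f : Hˣ → ℚ), (∀ a b, f (a * b) = f a + f b) →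
    t.sum (fun u c => c * (f (Units.map (σ : H →* H) u) : ℂ)) =
      ((χ σ : ℂˣ) : ℂ)⁻¹ * t.sum (fun u c => c * (f u : ℂ))

/-- `log |∑ t(u) ⊗ u|_v = ∑ t(u) log |u|_v`. -/
noncomputable def logT (v : InfinitePlace H) (t : Hˣ →₀ ℂ) : ℂ :=
  t.sum fun u c => c * (Real.log (v (u : H)) : ℂ)

/-- The setting of the page for the base field `K` (`F` on the page) and its abelian extension `H`
(`K` on the page): `K` is real quadratic with the places `v₁`, `v₂`; the places of `H` over `v₁` are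
real, those over `v₂` are complex (in particular `H ≠ K`), `σ₂` is the real embedding of `K` at `v₂`;
`χ(c₂) = -1` for a complex conjugation `c₂` at a place over `v₂`. -/
structure Setting (H : Type) [Field H] [NumberField H] [Algebra K H] (v₁ v₂ : InfinitePlace K)
    (σ₂ : K →+* ℝ) (χ : (H ≃ₐ[K] H) →* ℂˣ) : Prop where
  quad : Module.finrank ℚ K = 2
  real₁ : v₁.IsReal
  ne : v₁ ≠ v₂
  emb : InfinitePlace.mk (Complex.ofRealHom.comp σ₂) = v₂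
  above₁ : ∀ w : InfinitePlace H, w.comap (algebraMap K H) = v₁ → w.IsReal
  above₂ : ∀ w : InfinitePlace H, w.comap (algebraMap K H) = v₂ → w.IsComplex
  mixed : ∃ (φ : H →+* ℂ) (c : H ≃ₐ[K] H),
    (InfinitePlace.mk φ).comap (algebraMap K H) = v₂ ∧ ComplexEmbedding.IsConj φ c ∧
      ((χ c : ℂˣ) : ℂ) = -1

/-- The assertion of Q1 for `K, H, S, v, χ`. -/
def Stark (𝔣 : Ideal (𝓞 K)) (A : Ideal (𝓞 K) → (H ≃ₐ[K] H)) (χ : (H ≃ₐ[K] H) →* ℂˣ)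
    (v₁ : InfinitePlace K) (v : InfinitePlace H) : Prop :=
  ∃ t : Hˣ →₀ ℂ, InPart χ v₁ t ∧
    ∀ Z, IsL 𝔣 A χ Z → deriv Z 0 = logT v t

/-- The same assertion with the limit of `D_χ(t)` along `l` in place of `L_S'(χ, 0)`. -/
def StarkLim (γ : ℝ) (l : Filter ℝ) (𝔣 : Ideal (𝓞 K)) (A : Ideal (𝓞 K) → (H ≃ₐ[K] H))
    (χ : (H ≃ₐ[K] H) →* ℂˣ) (v₁ : InfinitePlace K) (v : InfinitePlace H) : Prop :=
  ∃ t : Hˣ →₀ ℂ, InPart χ v₁ t ∧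
    Tendsto (approx 𝔣 A χ γ) l (𝓝 (logT v t))

/-- `R` holds for all `K`, `H`, `v`, `χ` as in the setting, `S` the set of the archimedean places and
the prime divisors of `𝔣`, `0 ≠ 𝔣 ≠ 𝓞 K`, `𝔣 ∞₂` a modulus of `H / K`, such that `L_S(χ, s)` has a
simple zero at `0`. -/
def ForAll (R : ∀ (K H : Type) [Field K] [NumberField K] [Field H] [NumberField H] [Algebra K H],
    Ideal (𝓞 K) → (Ideal (𝓞 K) → (H ≃ₐ[K] H)) → ((H ≃ₐ[K] H) →* ℂˣ) → InfinitePlace K →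
      InfinitePlace H → Prop) : Prop :=
  ∀ (K H : Type) [Field K] [NumberField K] [Field H] [NumberField H] [Algebra K H]
    (v₁ v₂ : InfinitePlace K) (σ₂ : K →+* ℝ) (χ : (H ≃ₐ[K] H) →* ℂˣ), Setting H v₁ v₂ σ₂ χ →
      ∀ 𝔣 : Ideal (𝓞 K), 𝔣 ≠ ⊥ → 𝔣 ≠ ⊤ →
        ∀ A : Ideal (𝓞 K) → (H ≃ₐ[K] H), IsArtinMap H 𝔣 {σ₂} A →
          (∀ Z, IsL 𝔣 A χ Z → meromorphicOrderAt Z 0 = 1) →
            ∀ v : InfinitePlace H, v.comap (algebraMap K H) = v₁ → R K H 𝔣 A χ v₁ v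

end defs

section proofs

variable {K : Type} [Field K] [NumberField K]

open Classical in
lemma term_eq (γ T : ℝ) (𝔞 : Ideal (𝓞 K)) : term γ T 𝔞 = Run7.h767.ST.tm γ T 𝔞 := by
  have h : (wt 𝔞 : ℝ) = Pool.Agent.Y773.VM 𝔞 / Run7.h767.ST.lg 𝔞 := by
    unfold wt Pool.Agent.Y773.VM Run7.h767.ST.lg
    split_ifs
    · rfl
    · rw [zero_div]
  unfold term
  rw [h]
  rfl

lemma approx_eq {G : Type} [Group G] (𝔣 : Ideal (𝓞 K)) (A : Ideal (𝓞 K) → G) (χ : G →* ℂˣ)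
    (γ T : ℝ) : approx 𝔣 A χ γ T = T * Complex.exp (-Pool.Agent.W187.UR.Lam γ) *
      Complex.exp (∑ᶠ τ : G, ((χ τ : ℂˣ) : ℂ) * Run7.h767.ST.SG 𝔣 A τ γ T) := by
  have h : ∀ τ : G, primeSum 𝔣 A τ γ T = Run7.h767.ST.SG 𝔣 A τ γ T := by
    intro τ
    unfold primeSum Run7.h767.ST.SG
    exact tsum_congr fun 𝔞 => term_eq γ T 𝔞.1
  unfold approx
  simp only [h]
  rfl

/-- (A) -/
lemma partA {P : Set (K →+* ℝ)} (hK : (∃ w : InfinitePlace K, w.IsComplex) ∨ P ≠ Set.univ)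
    {𝔣 : Ideal (𝓞 K)} (hbot : 𝔣 ≠ ⊥) (htop : 𝔣 ≠ ⊤) {G : Type} [Group G] [Finite G]
    {A : Ideal (𝓞 K) → G} (hA : IsRayHom 𝔣 P A) (χ : G →* ℂˣ) :
    (∃ Z, IsL 𝔣 A χ Z ∧ ∀ s : ℂ, s ≠ 1 → AnalyticAt ℂ Z s) ∧
      ∀ Z, IsL 𝔣 A χ Z → Z 0 = 0 ∧ ∀ γ : ℝ, Real.pi / 2 < γ →
        (fun T : ℝ => approx 𝔣 A χ γ T - deriv Z 0) =O[atTop] fun T : ℝ => 1 / T := by
  obtain ⟨Z₀, h1, h2, h3, h4, h5⟩ := Run7.h767.ST.main_chi hK hbot htop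
    (⟨hA.mul, hA.ray⟩ : Run7.h767.ST.IsArt 𝔣 P A) χ
  have hZ₀ : IsL 𝔣 A χ Z₀ := ⟨h2, h1 0 (by norm_num), h3⟩
  refine ⟨⟨Z₀, hZ₀, h1⟩, fun Z hZ => ?_⟩
  have h6 : Z =ᶠ[𝓝 0] Z₀ := Run7.h767.ST.mero_uniq hZ.1 hZ₀.1 hZ.2.1 hZ₀.2.1 fun s hs => by
    rw [hZ.2.2 s hs, hZ₀.2.2 s hs]
  refine ⟨h6.eq_of_nhds.trans h4, fun γ hγ => ?_⟩
  rw [h6.deriv_eq]
  exact (h5 γ hγ).congr_left fun T => by rw [approx_eq]

lemma tendsto_of_isBigO {f : ℝ → ℂ} {c : ℂ}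
    (h : (fun T : ℝ => f T - c) =O[atTop] fun T : ℝ => 1 / T) : Tendsto f atTop (𝓝 c) := by
  have h1 : Tendsto (fun T : ℝ => f T - c) atTop (𝓝 0) :=
    h.trans_tendsto (tendsto_const_nhds.div_atTop tendsto_id)
  have h2 := h1.add_const c
  simpa using h2

lemma deriv_iff {P : Set (K →+* ℝ)} (hK : (∃ w : InfinitePlace K, w.IsComplex) ∨ P ≠ Set.univ)
    {𝔣 : Ideal (𝓞 K)} (hbot : 𝔣 ≠ ⊥) (htop : 𝔣 ≠ ⊤) {G : Type} [Group G] [Finite G]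
    {A : Ideal (𝓞 K) → G} (hA : IsRayHom 𝔣 P A) (χ : G →* ℂˣ) {γ : ℝ} (hγ : Real.pi / 2 < γ)
    {l : Filter ℝ} [l.NeBot] (hl : l ≤ atTop) (c : ℂ) :
    (∀ Z, IsL 𝔣 A χ Z → deriv Z 0 = c) ↔ Tendsto (approx 𝔣 A χ γ) l (𝓝 c) := by
  obtain ⟨⟨Z₀, hZ₀, -⟩, h⟩ := partA hK hbot htop hA χ
  constructor
  · intro h1
    rw [← h1 Z₀ hZ₀]
    exact (tendsto_of_isBigO ((h Z₀ hZ₀).2 γ hγ)).mono_left hl
  · intro h1 Z hZ
    exact tendsto_nhds_unique ((tendsto_of_isBigO ((h Z hZ).2 γ hγ)).mono_left hl) h1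

end proofs

/-- See the header. -/
theorem result :
    -- (A) the formula, for every number field, modulus and character of a finite group
    (∀ (K : Type) [Field K] [NumberField K] (P : Set (K →+* ℝ)),
      ((∃ w : InfinitePlace K, w.IsComplex) ∨ P ≠ Set.univ) →
        ∀ 𝔣 : Ideal (𝓞 K), 𝔣 ≠ ⊥ → 𝔣 ≠ ⊤ → ∀ (G : Type) [Group G] [Finite G],
            ∀ A : Ideal (𝓞 K) → G, IsRayHom 𝔣 P A → ∀ χ : G →* ℂˣ,
              (∃ Z, IsL 𝔣 A χ Z ∧ ∀ s : ℂ, s ≠ 1 → AnalyticAt ℂ Z s) ∧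
              ∀ Z, IsL 𝔣 A χ Z → Z 0 = 0 ∧ ∀ γ : ℝ, Real.pi / 2 < γ →
                (∀ T > 0, Summable fun 𝔞 : Ideal (𝓞 K) => ‖term γ T 𝔞‖) ∧
                (fun T : ℝ => approx 𝔣 A χ γ T - deriv Z 0) =O[atTop] fun T : ℝ => 1 / T) ∧
    -- (B) Q1
    ∀ (γ : ℝ), Real.pi / 2 < γ → ∀ l : Filter ℝ, l.NeBot → l ≤ atTop →
      ForAll (fun _ _ _ _ _ _ _ 𝔣 A χ v₁ v => Stark 𝔣 A χ v₁ v ↔ StarkLim γ l 𝔣 A χ v₁ v) ∧
      (ForAll (fun _ _ _ _ _ _ _ 𝔣 A χ v₁ v => Stark 𝔣 A χ v₁ v) ↔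
        ForAll (fun _ _ _ _ _ _ _ 𝔣 A χ v₁ v => StarkLim γ l 𝔣 A χ v₁ v)) := by
  refine ⟨?_, ?_⟩
  · intro K _ _ P hK 𝔣 hbot htop G _ _ A hA χ
    obtain ⟨h1, h2⟩ := partA hK hbot htop hA χ
    refine ⟨h1, fun Z hZ => ⟨(h2 Z hZ).1, fun γ hγ => ⟨fun T hT => ?_, (h2 Z hZ).2 γ hγ⟩⟩⟩
    exact (Run7.h767.ST.tm_summable γ hT).congr fun 𝔞 => by rw [term_eq]
  · intro γ hγ l hl1 hl
    have key : ForAll (fun _ _ _ _ _ _ _ 𝔣 A χ v₁ v => Stark 𝔣 A χ v₁ v ↔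
        StarkLim γ l 𝔣 A χ v₁ v) := by
      intro K H _ _ _ _ _ v₁ v₂ σ₂ χ hs 𝔣 hbot htop A hA _ v _
      have hP : ({σ₂} : Set (K →+* ℝ)) ≠ Set.univ := by
        intro h
        obtain ⟨σ₁, hσ₁⟩ : ∃ σ₁ : K →+* ℝ, InfinitePlace.mk (Complex.ofRealHom.comp σ₁) = v₁ := by
          refine ⟨InfinitePlace.embedding_of_isReal hs.real₁, ?_⟩
          have h2 : Complex.ofRealHom.comp (InfinitePlace.embedding_of_isReal hs.real₁) =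
              v₁.embedding := by
            ext x
            exact InfinitePlace.embedding_of_isReal_apply hs.real₁ x
          rw [h2, InfinitePlace.mk_embedding]
        have h1 : σ₁ ∈ ({σ₂} : Set (K →+* ℝ)) := by rw [h]; exact Set.mem_univ _
        have h3 : σ₁ = σ₂ := h1
        apply hs.ne
        rw [← hσ₁, ← hs.emb, h3]
      have h1 : ∀ c : ℂ, (∀ Z, IsL 𝔣 A χ Z → deriv Z 0 = c) ↔
          Tendsto (approx 𝔣 A χ γ) l (𝓝 c) := fun c =>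
        deriv_iff (Or.inr hP) hbot htop ⟨hA.mul, hA.ray⟩ χ hγ hl c
      unfold Stark StarkLim
      simp only [h1]
    refine ⟨key, ?_, ?_⟩
    · intro h K H _ _ _ _ _ v₁ v₂ σ₂ χ hs 𝔣 hbot htop A hA ho v hv
      exact (key K H v₁ v₂ σ₂ χ hs 𝔣 hbot htop A hA ho v hv).1
        (h K H v₁ v₂ σ₂ χ hs 𝔣 hbot htop A hA ho v hv)
    · intro h K H _ _ _ _ _ v₁ v₂ σ₂ χ hs 𝔣 hbot htop A hA ho v hv
      exact (key K H v₁ v₂ σ₂ χ hs 𝔣 hbot htop A hA ho v hv).2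
        (h K H v₁ v₂ σ₂ χ hs 𝔣 hbot htop A hA ho v hv)

end Pool.Agent.Results.MP_c49e96_nt.MixedSignatureByPrimes
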